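import Pool.Agent.Lib.MP_627f83_co.Problem
import Pool.Agent.Lib.MP_627f83_co.FinB

/-!
# Row treewidth of k-matching-planar graphs is bounded

Every `k`-matching-planar graph (arbitrary drawings by simple arcs: edges may cross many times,
edges with a common endpoint may cross, no bound on pairwise crossing edges at a vertex) has row
treewidth at most `11000000 (k+1)^5`.  This answers Q1 of the problem: yes.
-/

namespace Pool.Agent.Results.MP_627f83_co.RowTreewidthBounded

open Pool.MP627f83

/-- Every finite `k`-matching-planar graph has row treewidth at most `11000000 * (k + 1) ^ 5`. -/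
theorem result (k : ℕ) (V : Type) [Finite V] (G : SimpleGraph V) (hG : KMatchingPlanar k G) :
    RowTreewidthLE G (11000000 * (k + 1) ^ 5) :=
  row_treewidth_bound k G hG

end Pool.Agent.Results.MP_627f83_co.RowTreewidthBounded
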